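import Pool.Agent.H27.G.R_seed8.H382R2.Defs
import Pool.Agent.H27.G.R_seed8.H370R2.Rect

open Complex Filter Topology Set MeasureTheory

namespace SG

theorem rect_zero (F : ℂ → ℂ) (a b c d : ℝ) (hab : a < b) (hcd : c < d)
    (hF : AnalyticOnNhd ℂ F (Set.Icc a b ×ℂ Set.Icc c d)) : rectI F a b c d = 0 := by
  have := H370.RI_zero hab.le hcd.le hF.differentiableOn
  exact this

namespace RectAux

/-- induction form of the residue theorem with simple zeros -/
lemma res_aux (U : Set ℂ) (hU : IsOpen U) (a b c d : ℝ) (hab : a < b) (hcd : c < d)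
    (hRU : Set.Icc a b ×ℂ Set.Icc c d ⊆ U) (Z : Finset ℂ) :
    ∀ f H : ℂ → ℂ, DifferentiableOn ℂ f U → DifferentiableOn ℂ H U →
    (∀ z ∈ Z, z ∈ Set.Ioo a b ×ℂ Set.Ioo c d) →
    (∀ s ∈ Set.Icc a b ×ℂ Set.Icc c d, f s = 0 ↔ s ∈ Z) →
    (∀ z ∈ Z, deriv f z ≠ 0) →
    H370.RI a b c d (fun s => H s / f s) = 2 * Real.pi * I * ∑ z ∈ Z, H z / deriv f z := by
  classical
  induction Z using Finset.induction_on with
  | empty =>
    intro f H hf hH _ h0 _
    rw [Finset.sum_empty, mul_zero]
    apply H370.RI_zero hab.le hcd.le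
    apply DifferentiableOn.div (hH.mono hRU) (hf.mono hRU)
    intro s hs h
    have := (h0 s hs).mp h
    simp at this
  | insert z Z' hz ih =>
    intro f H hf hH hI h0 h1
    have hzI : z ∈ Set.Ioo a b ×ℂ Set.Ioo c d := hI z (Finset.mem_insert_self _ _)
    have hzR : z ∈ Set.Icc a b ×ℂ Set.Icc c d :=
      ⟨Ioo_subset_Icc_self hzI.1, Ioo_subset_Icc_self hzI.2⟩
    have hzU : U ∈ 𝓝 z := hU.mem_nhds (hRU hzR)
    have hfz : f z = 0 := (h0 z hzR).mpr (Finset.mem_insert_self _ _)
    have hdz : deriv f z ≠ 0 := h1 z (Finset.mem_insert_self _ _)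
    set g : ℂ → ℂ := dslope f z with hg
    have hgd : DifferentiableOn ℂ g U := (Complex.differentiableOn_dslope hzU).2 hf
    have hgz : g z = deriv f z := dslope_same f z
    have hgne : ∀ s, s ≠ z → g s = f s / (s - z) := by
      intro s hs
      rw [hg, dslope_of_ne _ hs, slope_def_field, hfz, sub_zero]
    set r : ℂ := H z / g z with hr
    have hgz0 : g z ≠ 0 := by rw [hgz]; exact hdz
    set M : ℂ → ℂ := fun s => H s - r * g s with hM
    have hMd : DifferentiableOn ℂ M U := hH.sub (hgd.const_mul r)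
    have hMz : M z = 0 := by
      simp only [hM, hr]
      field_simp
      ring
    set K : ℂ → ℂ := dslope M z with hK
    have hKd : DifferentiableOn ℂ K U := (Complex.differentiableOn_dslope hzU).2 hMd
    have hKne : ∀ s, s ≠ z → K s = (H s - r * g s) / (s - z) := by
      intro s hs
      rw [hK, dslope_of_ne _ hs, slope_def_field, hMz, sub_zero]
    have g0 : ∀ s ∈ Set.Icc a b ×ℂ Set.Icc c d, g s = 0 ↔ s ∈ Z' := by
      intro s hs
      by_cases h : s = z
      · subst h
        constructor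
        · intro h'
          exact absurd h' hgz0
        · intro h'
          exact absurd h' hz
      · rw [hgne s h, div_eq_zero_iff, h0 s hs, Finset.mem_insert]
        constructor
        · rintro ((h' | h') | h')
          · exact absurd h' h
          · exact h'
          · exact absurd (sub_eq_zero.mp h') h
        · intro h'
          exact Or.inl (Or.inr h')
    have hneZ' : ∀ z' ∈ Z', z' ≠ z := by
      intro z' hz' he
      rw [he] at hz'
      exact hz hz'
    have hder : ∀ z' ∈ Z', deriv g z' = deriv f z' / (z' - z) := by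
      intro z' hz'
      have hne := hneZ' z' hz'
      have hz'R : z' ∈ Set.Icc a b ×ℂ Set.Icc c d := by
        have := hI z' (Finset.mem_insert_of_mem hz')
        exact ⟨Ioo_subset_Icc_self this.1, Ioo_subset_Icc_self this.2⟩
      have hfz' : f z' = 0 := (h0 z' hz'R).mpr (Finset.mem_insert_of_mem hz')
      have hfd : DifferentiableAt ℂ f z' := hf.differentiableAt (hU.mem_nhds (hRU hz'R))
      have e : g =ᶠ[𝓝 z'] fun s => f s / (s - z) := by
        filter_upwards [isOpen_ne.mem_nhds hne] with s hs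
        exact hgne s hs
      rw [e.deriv_eq]
      have hsub : HasDerivAt (fun s : ℂ => s - z) 1 z' := (hasDerivAt_id z').sub_const z
      have hdiv := hfd.hasDerivAt.div hsub (sub_ne_zero.mpr hne)
      have := hdiv.deriv
      rw [show (fun s => f s / (s - z)) = f / fun s => s - z from rfl, this, hfz']
      have hne0 : z' - z ≠ 0 := sub_ne_zero.mpr hne
      field_simp
      ring
    have key := ih g K hgd hKd (fun z' hz' => hI z' (Finset.mem_insert_of_mem hz')) g0 (by
      intro z' hz'
      rw [hder z' hz']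
      exact div_ne_zero (h1 z' (Finset.mem_insert_of_mem hz'))
        (sub_ne_zero.mpr (hneZ' z' hz')))
    have hB : ∀ s ∈ H370.Bd a b c d, s ≠ z := fun s hs he => H370.Bd_not_Ioo hs (he ▸ hzI)
    have hBg : ∀ s ∈ H370.Bd a b c d, g s ≠ 0 := by
      intro s hs h
      have hsR := H370.Bd_sub hab.le hcd.le hs
      have := (g0 s hsR).mp h
      exact H370.Bd_not_Ioo hs (hI s (Finset.mem_insert_of_mem this))
    have e1 : H370.RI a b c d (fun s => H s / f s) =
        H370.RI a b c d (fun s => K s / g s + r * (s - z)⁻¹) := by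
      apply H370.RI_congr hab.le hcd.le
      intro s hs
      have hsz := hB s hs
      have hsz0 : s - z ≠ 0 := sub_ne_zero.mpr hsz
      have hgs := hBg s hs
      have hfs : f s = g s * (s - z) := by
        rw [hgne s hsz]
        field_simp
      rw [hKne s hsz, hfs]
      field_simp
      ring
    have hBU : H370.Bd a b c d ⊆ U := (H370.Bd_sub hab.le hcd.le).trans hRU
    have hc1 : ContinuousOn (fun s => K s / g s) (H370.Bd a b c d) :=
      (hKd.continuousOn.mono hBU).div (hgd.continuousOn.mono hBU) hBg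
    have hc2 : ContinuousOn (fun s : ℂ => r * (s - z)⁻¹) (H370.Bd a b c d) := by
      apply continuousOn_const.mul
      apply ContinuousOn.inv₀ (by fun_prop)
      intro s hs
      exact sub_ne_zero.2 (hB s hs)
    rw [e1, H370.RI_add hab.le hcd.le hc1 hc2, H370.RI_const_mul, H370.RI_inv hzI, key,
      Finset.sum_insert hz]
    have e2 : ∑ z' ∈ Z', K z' / deriv g z' = ∑ z' ∈ Z', H z' / deriv f z' := by
      apply Finset.sum_congr rfl
      intro z' hz'
      have hne := hneZ' z' hz'
      have hz'R : z' ∈ Set.Icc a b ×ℂ Set.Icc c d := by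
        have := hI z' (Finset.mem_insert_of_mem hz')
        exact ⟨Ioo_subset_Icc_self this.1, Ioo_subset_Icc_self this.2⟩
      have hgz' : g z' = 0 := (g0 z' hz'R).mpr hz'
      rw [hder z' hz', hKne z' hne, hgz', mul_zero, sub_zero]
      have hne0 : z' - z ≠ 0 := sub_ne_zero.mpr hne
      have := h1 z' (Finset.mem_insert_of_mem hz')
      field_simp
    rw [e2, hr, hgz]
    ring

end RectAux

theorem rect_res (f H : ℂ → ℂ) (a b c d : ℝ) (hab : a < b) (hcd : c < d) (Z : Finset ℂ)
    (hZ : ∀ z ∈ Z, z ∈ Set.Ioo a b ×ℂ Set.Ioo c d)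
    (hf : AnalyticOnNhd ℂ f (Set.Icc a b ×ℂ Set.Icc c d))
    (hH : AnalyticOnNhd ℂ H (Set.Icc a b ×ℂ Set.Icc c d))
    (h0 : ∀ s ∈ Set.Icc a b ×ℂ Set.Icc c d, f s = 0 ↔ s ∈ Z)
    (h1 : ∀ z ∈ Z, deriv f z ≠ 0) :
    rectI (fun s => H s / f s) a b c d = 2 * Real.pi * I * ∑ z ∈ Z, H z / deriv f z := by
  have h := RectAux.res_aux ({s | AnalyticAt ℂ f s} ∩ {s | AnalyticAt ℂ H s})
    ((isOpen_analyticAt ℂ f).inter (isOpen_analyticAt ℂ H)) a b c d hab hcd
    (fun s hs => ⟨hf s hs, hH s hs⟩) Z f H
    (fun s hs => hs.1.differentiableAt.differentiableWithinAt)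
    (fun s hs => hs.2.differentiableAt.differentiableWithinAt) hZ h0 h1
  exact h

end SG
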